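import Pool.Agent.L0h31.KQ.Defs2

/-!
# KQ: removing a random square root (module JEN)
-/

set_option autoImplicit false

namespace Pool.Agent.L0h57.KQ

open Pool.Agent.L0h31.KQ
open MeasureTheory Matrix
open scoped ENNReal InnerProductSpace ComplexOrder

lemma dot_form {ι : Type} [Fintype ι] (u : ι → ℂ) (M : Matrix ι ι ℂ) :
    ∑ i, ∑ j, star (u i) * M i j * u j = star u ⬝ᵥ (M *ᵥ u) := by
  simp only [dotProduct, mulVec, Pi.star_apply, Finset.mul_sum, mul_assoc]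

/-- the elementary inequality -/
lemma am_gm {s x y : ℝ} (hs : 0 < s) :
    x * y ≤ s / 4 * x ^ 2 + 1 / s * y ^ 2 := by
  have h : 0 ≤ (s / 2 * x - y) ^ 2 / s := div_nonneg (sq_nonneg _) hs.le
  have e : (s / 2 * x - y) ^ 2 / s = s / 4 * x ^ 2 + 1 / s * y ^ 2 - x * y := by
    field_simp
    ring
  linarith

/-- lower bound for one block -/
lemma block_low {ι κ : Type} [Fintype ι] [DecidableEq ι] [DecidableEq κ] (c : ι → κ) (k : κ) (mk : ℝ)
    (hm : 0 < mk) (ρ : Matrix ι ι ℂ) (hblk : ∀ i j, c i ≠ c j → ρ i j = 0)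
    (hlow : ∀ w : ι → ℂ, (∀ i, w i ≠ 0 → c i = k) → (1 / 2) * Real.sqrt mk * ∑ i, ‖w i‖ ^ 2 ≤
      (∑ i, ∑ j, star (w i) * ρ i j * w j).re) (w : ι → ℂ) :
    mk / 4 * ∑ i with c i = k, ‖w i‖ ^ 2 ≤ ∑ i with c i = k, ‖(ρ *ᵥ w) i‖ ^ 2 := by
  have hs : 0 < Real.sqrt mk := Real.sqrt_pos.mpr hm
  have hss : Real.sqrt mk * Real.sqrt mk = mk := Real.mul_self_sqrt hm.le
  have h1 := hlow (fun i => if c i = k then w i else 0) (by
    intro i hi
    by_contra hc
    simp [hc] at hi)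
  have hA : ∑ i, ‖(fun i => if c i = k then w i else 0) i‖ ^ 2 = ∑ i with c i = k, ‖w i‖ ^ 2 := by
    rw [Finset.sum_filter]
    refine Finset.sum_congr rfl fun i _ => ?_
    by_cases hc : c i = k <;> simp [hc]
  have hB : (∑ i, ∑ j, star ((fun i => if c i = k then w i else 0) i) * ρ i j *
      (fun i => if c i = k then w i else 0) j) =
      ∑ i with c i = k, star (w i) * (ρ *ᵥ w) i := by
    rw [Finset.sum_filter]
    refine Finset.sum_congr rfl fun i _ => ?_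
    by_cases hc : c i = k
    · simp only [hc, if_true]
      rw [mulVec, dotProduct, Finset.mul_sum]
      refine Finset.sum_congr rfl fun j _ => ?_
      by_cases hj : c j = k
      · simp only [hj, if_true, mul_assoc]
      · have : ρ i j = 0 := hblk i j (by rw [hc]; exact fun h => hj h.symm)
        simp [this]
    · simp [hc]
  rw [hA, hB] at h1
  have h2 : (∑ i with c i = k, star (w i) * (ρ *ᵥ w) i).re ≤
      ∑ i with c i = k, (Real.sqrt mk / 4 * ‖w i‖ ^ 2 + 1 / Real.sqrt mk * ‖(ρ *ᵥ w) i‖ ^ 2) := by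
    rw [Complex.re_sum]
    refine Finset.sum_le_sum fun i _ => ?_
    calc (star (w i) * (ρ *ᵥ w) i).re ≤ ‖star (w i) * (ρ *ᵥ w) i‖ := Complex.re_le_norm _
      _ = ‖w i‖ * ‖(ρ *ᵥ w) i‖ := by rw [norm_mul, norm_star]
      _ ≤ _ := am_gm hs
  rw [Finset.sum_add_distrib, ← Finset.mul_sum, ← Finset.mul_sum] at h2
  set A := ∑ i with c i = k, ‖w i‖ ^ 2
  set B := ∑ i with c i = k, ‖(ρ *ᵥ w) i‖ ^ 2
  have h3 : Real.sqrt mk / 4 * A ≤ 1 / Real.sqrt mk * B := by linarith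
  have h4 := mul_le_mul_of_nonneg_left h3 hs.le
  have e1 : Real.sqrt mk * (Real.sqrt mk / 4 * A) = mk / 4 * A := by
    calc Real.sqrt mk * (Real.sqrt mk / 4 * A) = (Real.sqrt mk * Real.sqrt mk) / 4 * A := by ring
      _ = mk / 4 * A := by rw [hss]
  have e2 : Real.sqrt mk * (1 / Real.sqrt mk * B) = B := by
    field_simp
  rw [e1, e2] at h4
  exact h4

/-- the sum over all blocks -/
lemma sum_low {ι κ : Type} [Fintype ι] [DecidableEq ι] [DecidableEq κ] (c : ι → κ) (m n : κ → ℝ)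
    (hm : ∀ k, 0 < m k) (hn : ∀ k, 0 ≤ n k) (x y : ι → ℝ)
    (h : ∀ k, m k / 4 * ∑ i with c i = k, x i ≤ ∑ i with c i = k, y i) :
    ∑ i, n (c i) * x i ≤ 4 * ∑ i, n (c i) / m (c i) * y i := by
  rw [← Finset.sum_fiberwise_of_maps_to (s := Finset.univ) (t := Finset.univ.image c) (g := c)
      (fun i _ => Finset.mem_image_of_mem c (Finset.mem_univ i)) (fun i => n (c i) * x i),
    ← Finset.sum_fiberwise_of_maps_to (s := Finset.univ) (t := Finset.univ.image c) (g := c)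
      (fun i _ => Finset.mem_image_of_mem c (Finset.mem_univ i)) (fun i => n (c i) / m (c i) * y i),
    Finset.mul_sum]
  refine Finset.sum_le_sum fun k _ => ?_
  have e1 : ∑ i with c i = k, n (c i) * x i = n k * ∑ i with c i = k, x i := by
    rw [Finset.mul_sum]
    refine Finset.sum_congr rfl fun i hi => ?_
    rw [(Finset.mem_filter.mp hi).2]
  have e2 : ∑ i with c i = k, n (c i) / m (c i) * y i = n k / m k * ∑ i with c i = k, y i := by
    rw [Finset.mul_sum]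
    refine Finset.sum_congr rfl fun i hi => ?_
    rw [(Finset.mem_filter.mp hi).2]
  rw [e1, e2]
  have h1 := h k
  have h2 : 0 ≤ n k / m k := div_nonneg (hn k) (hm k).le
  have h3 := mul_le_mul_of_nonneg_left h1 h2
  have e3 : n k / m k * (m k / 4 * ∑ i with c i = k, x i) = n k * (∑ i with c i = k, x i) / 4 := by
    have := (hm k).ne'
    field_simp
  rw [e3] at h3
  linarith

lemma quad_ineq {ι : Type} [Fintype ι] [DecidableEq ι] {X : Matrix ι ι ℂ} (hX : X.PosSemidef)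
    (x y : ι → ℂ) :
    2 * (star y ⬝ᵥ (X *ᵥ x)).re - (star y ⬝ᵥ (X *ᵥ y)).re ≤ (star x ⬝ᵥ (X *ᵥ x)).re := by
  have h0 : 0 ≤ (star (x - y) ⬝ᵥ (X *ᵥ (x - y))).re := by
    have := hX.dotProduct_mulVec_nonneg (x - y)
    exact (Complex.le_def.mp this).1
  have hs : (star x ⬝ᵥ (X *ᵥ y)).re = (star y ⬝ᵥ (X *ᵥ x)).re := by
    have h1 : star x ⬝ᵥ (X *ᵥ y) = star (star y ⬝ᵥ (X *ᵥ x)) := by
      rw [star_dotProduct, star_mulVec, hX.isHermitian.eq, ← dotProduct_mulVec]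
    rw [h1]
    simp
  rw [mulVec_sub, star_sub, sub_dotProduct, dotProduct_sub, dotProduct_sub] at h0
  simp only [Complex.sub_re] at h0
  rw [hs] at h0
  linarith

theorem jen : S_JEN := by
  intro Ω ι κ _ _ _ μ _ c m n hm hn R hint hherm hblk hlow X hX Z hZ hZX u
  classical
  set ρ : Matrix ι ι ℂ := fun i j => ∫ ω, R ω i j ∂μ with hρ
  have hρblk : ∀ i j, c i ≠ c j → ρ i j = 0 := by
    intro i j hij
    have h1 : (fun ω => R ω i j) =ᵐ[μ] fun _ => 0 := by
      filter_upwards [hblk] with ω hω using hω i j hij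
    change ∫ ω, R ω i j ∂μ = 0
    rw [integral_congr_ae h1, integral_zero]
  have key : ∀ (w : ι → ℂ) (k : κ), m k / 4 * ∑ i with c i = k, ‖w i‖ ^ 2 ≤
      ∑ i with c i = k, ‖(ρ *ᵥ w) i‖ ^ 2 := fun w k =>
    block_low c k (m k) (hm k) ρ hρblk (hlow k) w
  have hinj : Function.Injective (Matrix.mulVecLin ρ) := by
    rw [injective_iff_map_eq_zero]
    intro w hw
    rw [Matrix.mulVecLin_apply] at hw
    funext i
    have h1 := key w (c i)
    rw [hw] at h1
    simp only [Pi.zero_apply, norm_zero, ne_eq, OfNat.ofNat_ne_zero, not_false_eq_true, zero_pow,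
      Finset.sum_const_zero] at h1
    have h2 : ‖w i‖ ^ 2 ≤ ∑ j with c j = c i, ‖w j‖ ^ 2 :=
      Finset.single_le_sum (f := fun j => ‖w j‖ ^ 2) (fun j _ => sq_nonneg _)
        (Finset.mem_filter.mpr ⟨Finset.mem_univ i, rfl⟩)
    have h3 : ∑ j with c j = c i, ‖w j‖ ^ 2 ≤ 0 := by
      have := hm (c i)
      by_contra hc
      push Not at hc
      have : 0 < m (c i) / 4 * ∑ j with c j = c i, ‖w j‖ ^ 2 := by positivity
      linarith
    have h4 : ‖w i‖ ^ 2 ≤ 0 := h2.trans h3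
    have h5 : ‖w i‖ = 0 := by
      have := sq_nonneg ‖w i‖
      have h6 : ‖w i‖ ^ 2 = 0 := le_antisymm h4 this
      exact pow_eq_zero_iff (two_ne_zero) |>.mp h6
    exact norm_eq_zero.mp h5
  obtain ⟨w, hw⟩ := (LinearMap.injective_iff_surjective.mp hinj) u
  rw [Matrix.mulVecLin_apply] at hw
  subst hw
  have hsum : ∑ i, n (c i) * ‖w i‖ ^ 2 ≤ 4 * ∑ i, n (c i) / m (c i) * ‖(ρ *ᵥ w) i‖ ^ 2 :=
    sum_low c m n hm hn _ _ (key w)
  set y := ρ *ᵥ w with hy
  set N := ∑ i, n (c i) * ‖w i‖ ^ 2 with hN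
  -- the pointwise inequality
  have hform : ∀ ω, (R ω).IsHermitian → ∀ v : ι → ℂ,
      (∑ i, ∑ j, star (v i) * (R ω * X * R ω) i j * v j) =
        star (R ω *ᵥ v) ⬝ᵥ (X *ᵥ (R ω *ᵥ v)) := by
    intro ω hω v
    rw [dot_form, star_mulVec, hω.eq, ← dotProduct_mulVec, mulVec_mulVec, mulVec_mulVec,
      Matrix.mul_assoc]
  have hpt : ∀ᵐ ω ∂μ, 2 * (star y ⬝ᵥ (X *ᵥ (R ω *ᵥ w))).re - (star y ⬝ᵥ (X *ᵥ y)).re ≤ Z ω * N := by
    filter_upwards [hherm, hZX] with ω h1 h2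
    refine (quad_ineq hX _ _).trans ?_
    rw [← hform ω h1 w]
    exact h2 w
  -- the expectation
  have hexp : ∀ ω, star y ⬝ᵥ (X *ᵥ (R ω *ᵥ w)) =
      ∑ i, ∑ j, (star y ᵥ* X) i * (R ω i j * w j) := by
    intro ω
    rw [dotProduct_mulVec]
    simp only [dotProduct, mulVec, Finset.mul_sum]
  have hexp' : star y ⬝ᵥ (X *ᵥ y) = ∑ i, ∑ j, (star y ᵥ* X) i * (ρ i j * w j) := by
    rw [dotProduct_mulVec]
    rw [hy]
    simp only [dotProduct, mulVec, Finset.mul_sum]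
  have hintij : ∀ i j, Integrable (fun ω => (star y ᵥ* X) i * (R ω i j * w j)) μ := fun i j =>
    ((hint i j).mul_const (w j)).const_mul _
  have hintF : Integrable (fun ω => star y ⬝ᵥ (X *ᵥ (R ω *ᵥ w))) μ := by
    simp only [hexp]
    exact integrable_finsetSum _ fun i _ => integrable_finsetSum _ fun j _ => hintij i j
  have hF : ∫ ω, star y ⬝ᵥ (X *ᵥ (R ω *ᵥ w)) ∂μ = star y ⬝ᵥ (X *ᵥ y) := by
    simp only [hexp]
    rw [hexp', integral_finsetSum _ fun i _ => integrable_finsetSum _ fun j _ => hintij i j]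
    refine Finset.sum_congr rfl fun i _ => ?_
    rw [integral_finsetSum _ fun j _ => hintij i j]
    refine Finset.sum_congr rfl fun j _ => ?_
    rw [integral_const_mul, integral_mul_const]
  have hFre : ∫ ω, (star y ⬝ᵥ (X *ᵥ (R ω *ᵥ w))).re ∂μ = (star y ⬝ᵥ (X *ᵥ y)).re := by
    rw [← hF]
    exact integral_re hintF
  have hmain : (star y ⬝ᵥ (X *ᵥ y)).re ≤ (∫ ω, Z ω ∂μ) * N := by
    have hre : Integrable (fun ω => (star y ⬝ᵥ (X *ᵥ (R ω *ᵥ w))).re) μ := hintF.re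
    have h1 : ∫ ω, (2 * (star y ⬝ᵥ (X *ᵥ (R ω *ᵥ w))).re - (star y ⬝ᵥ (X *ᵥ y)).re) ∂μ ≤
        ∫ ω, Z ω * N ∂μ :=
      integral_mono_ae ((hre.const_mul 2).sub (integrable_const _)) (hZ.mul_const N) hpt
    rw [integral_sub (hre.const_mul 2) (integrable_const _), integral_const_mul,
      integral_mul_const, hFre] at h1
    simp only [integral_const, probReal_univ, one_smul] at h1
    linarith
  rw [dot_form]
  refine hmain.trans ?_
  by_cases hZ0 : 0 ≤ ∫ ω, Z ω ∂μ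
  · calc (∫ ω, Z ω ∂μ) * N ≤ (∫ ω, Z ω ∂μ) * (4 * ∑ i, n (c i) / m (c i) * ‖y i‖ ^ 2) :=
        mul_le_mul_of_nonneg_left hsum hZ0
      _ = _ := by ring
  · have hn0 : ∀ i, n (c i) = 0 := by
      intro i
      by_contra hne
      apply hZ0
      apply integral_nonneg_of_ae
      filter_upwards [hherm, hZX] with ω h1 h2
      have h3 := h2 (Pi.single i 1)
      rw [hform ω h1] at h3
      have h4 : 0 ≤ (star (R ω *ᵥ (Pi.single i 1 : ι → ℂ)) ⬝ᵥ (X *ᵥ (R ω *ᵥ Pi.single i 1))).re := by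
        have := hX.dotProduct_mulVec_nonneg (R ω *ᵥ (Pi.single i 1 : ι → ℂ))
        exact (Complex.le_def.mp this).1
      have h5 : ∑ j, n (c j) * ‖(Pi.single i (1 : ℂ) : ι → ℂ) j‖ ^ 2 = n (c i) := by
        rw [Finset.sum_eq_single i]
        · simp
        · intro j _ hj
          simp [Pi.single_eq_of_ne hj]
        · intro h
          exact absurd (Finset.mem_univ i) h
      rw [h5] at h3
      have h6 : 0 < n (c i) := lt_of_le_of_ne (hn _) (Ne.symm hne)
      have h7 : 0 ≤ Z ω * n (c i) := h4.trans h3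
      exact nonneg_of_mul_nonneg_left h7 h6
    have e1 : N = 0 := by
      rw [hN]
      exact Finset.sum_eq_zero fun i _ => by rw [hn0 i, zero_mul]
    have e2 : ∑ i, n (c i) / m (c i) * ‖y i‖ ^ 2 = 0 :=
      Finset.sum_eq_zero fun i _ => by rw [hn0 i, zero_div, zero_mul]
    rw [e1, e2]
    simp

end Pool.Agent.L0h57.KQ
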